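import Pool.Agent.Helper70.Matching.Specs1

set_option autoImplicit false
open Finset Pool.Agent.Helper70.Matching

namespace Pool.Agent.Helper66.Matching

variable {E : Type} [PseudoMetricSpace E] {ι : Type} [DecidableEq ι]

omit [PseudoMetricSpace E] in
theorem map_erase2 (z : ι → E) {s : Finset ι} {i j : ι} (hi : i ∈ s) (hj : j ∈ s.erase i) :
    s.val.map z = z i ::ₘ z j ::ₘ ((s.erase i).erase j).val.map z := by
  rw [← Multiset.map_cons z j, ← Multiset.map_cons z i]
  congr 1
  rw [Finset.erase_val, Multiset.cons_erase hj, Finset.erase_val, Multiset.cons_erase hi]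

theorem sum_erase2 (f : ι → ℝ) {s : Finset ι} {i j : ι} (hi : i ∈ s) (hj : j ∈ s.erase i) :
    ∑ k ∈ s, f k = f i + (f j + ∑ k ∈ (s.erase i).erase j, f k) := by
  rw [Finset.add_sum_erase _ _ hj, Finset.add_sum_erase _ _ hi]

theorem pm_of_inv (z : ι → E) (n : ℕ) : ∀ (s : Finset ι), s.card = n → ∀ (σ : ι → ι),
    (∀ i ∈ s, σ i ∈ s ∧ σ (σ i) = i ∧ σ i ≠ i) →
    PM (s.val.map z) ((1 / 2 : ℝ) * ∑ i ∈ s, dist (z i) (z (σ i))) := by
  induction n using Nat.strong_induction_on with
  | _ n ih =>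
    intro s hs σ hσ
    rcases s.eq_empty_or_nonempty with h0 | ⟨i, hi⟩
    · subst h0
      simpa using PM.nil
    · have hj : σ i ∈ s.erase i := Finset.mem_erase.2 ⟨(hσ i hi).2.2, (hσ i hi).1⟩
      have hc : ((s.erase i).erase (σ i)).card < n := by
        rw [← hs]
        exact (Finset.card_erase_le).trans_lt (Finset.card_erase_lt_of_mem hi)
      have h1 := ih _ hc _ rfl σ (by
        intro k hk
        rw [Finset.mem_erase, Finset.mem_erase] at hk
        obtain ⟨hk1, hk2, hk3⟩ := hk
        obtain ⟨a, b, c⟩ := hσ k hk3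
        refine ⟨?_, b, c⟩
        rw [Finset.mem_erase, Finset.mem_erase]
        refine ⟨fun h => ?_, fun h => ?_, a⟩
        · apply hk2
          rw [← b, h, (hσ i hi).2.1]
        · apply hk1
          rw [← b, h])
      rw [map_erase2 z hi hj, sum_erase2 _ hi hj, (hσ i hi).2.1]
      have h2 := PM.cons (z i) (z (σ i)) h1
      convert h2 using 1
      rw [dist_comm (z (σ i)) (z i)]
      ring

theorem inv_of_pm (z : ι → E) {P : Multiset E} {c : ℝ} (h : PM P c) : ∀ s : Finset ι,
    s.val.map z = P → ∃ σ : ι → ι, (∀ i ∈ s, σ i ∈ s ∧ σ (σ i) = i ∧ σ i ≠ i) ∧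
      c = (1 / 2 : ℝ) * ∑ i ∈ s, dist (z i) (z (σ i)) := by
  induction h with
  | nil =>
    intro s hs
    rw [Multiset.map_eq_zero, Finset.val_eq_zero] at hs
    subst hs
    exact ⟨id, by simp, by simp⟩
  | @cons x y P c _ ih =>
    intro s hs
    have hx : x ∈ s.val.map z := by rw [hs]; exact Multiset.mem_cons_self _ _
    obtain ⟨i, hi, rfl⟩ := Multiset.mem_map.1 hx
    have hi : i ∈ s := hi
    have h1 : (s.erase i).val.map z = y ::ₘ P := by
      have : s.val.map z = z i ::ₘ (s.erase i).val.map z := by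
        rw [← Multiset.map_cons z i, Finset.erase_val, Multiset.cons_erase hi]
      rw [this] at hs
      exact (Multiset.cons_inj_right _).1 hs
    have hy : y ∈ (s.erase i).val.map z := by rw [h1]; exact Multiset.mem_cons_self _ _
    obtain ⟨j, hj, rfl⟩ := Multiset.mem_map.1 hy
    have hj : j ∈ s.erase i := hj
    have h2 : ((s.erase i).erase j).val.map z = P := by
      have : (s.erase i).val.map z = z j ::ₘ ((s.erase i).erase j).val.map z := by
        rw [← Multiset.map_cons z j, Finset.erase_val (s.erase i), Multiset.cons_erase hj]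
      rw [this] at h1
      exact (Multiset.cons_inj_right _).1 h1
    obtain ⟨σ', hσ', hc'⟩ := ih _ h2
    have hji : j ≠ i := (Finset.mem_erase.1 hj).1
    have hjs : j ∈ s := (Finset.mem_erase.1 hj).2
    set σ : ι → ι := fun k => if k = i then j else if k = j then i else σ' k with hσ
    have si : σ i = j := by simp [hσ]
    have sj : σ j = i := by simp [hσ, hji]
    have sk : ∀ k, k ≠ i → k ≠ j → σ k = σ' k := by
      intro k h1 h2
      simp [hσ, h1, h2]
    refine ⟨σ, ?_, ?_⟩
    · intro k hk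
      by_cases hki : k = i
      · subst hki
        rw [si, sj]
        exact ⟨hjs, rfl, hji⟩
      · by_cases hkj : k = j
        · subst hkj
          rw [sj, si]
          exact ⟨hi, rfl, Ne.symm hji⟩
        · rw [sk k hki hkj]
          have hk' : k ∈ (s.erase i).erase j :=
            Finset.mem_erase.2 ⟨hkj, Finset.mem_erase.2 ⟨hki, hk⟩⟩
          obtain ⟨a, b, c⟩ := hσ' k hk'
          rw [Finset.mem_erase, Finset.mem_erase] at a
          rw [sk _ a.2.1 a.1]
          exact ⟨a.2.2, b, c⟩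
    · rw [sum_erase2 _ hi hj, si, sj, hc']
      have : ∑ k ∈ (s.erase i).erase j, dist (z k) (z (σ k))
          = ∑ k ∈ (s.erase i).erase j, dist (z k) (z (σ' k)) := by
        apply Finset.sum_congr rfl
        intro k hk
        rw [Finset.mem_erase, Finset.mem_erase] at hk
        rw [sk k hk.2.1 hk.1]
      rw [this, dist_comm (z j) (z i)]
      ring

theorem formula : Spec_formula := by
  intro k x
  unfold MF
  rw [iInf]
  congr 1
  have hd : ∀ i j : Fin (2 * k), Real.sqrt (((x i).1 - (x j).1) ^ 2 + ((x i).2 - (x j).2) ^ 2)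
      = dist ((⟨(x i).1, (x i).2⟩ : ℂ)) ((⟨(x j).1, (x j).2⟩ : ℂ)) := by
    intro i j
    rw [Complex.dist_eq_re_im]
  ext c
  constructor
  · rintro ⟨σ, rfl⟩
    refine ⟨0, by simp, ?_⟩
    rw [add_zero]
    have := pm_of_inv (fun i : Fin (2 * k) => (⟨(x i).1, (x i).2⟩ : ℂ)) _ univ rfl σ.1
      (fun i _ => ⟨mem_univ _, σ.2.1 i, σ.2.2 i⟩)
    simp only [hd]
    exact this
  · rintro ⟨Z, hZ, h⟩
    have hZ0 : Z = 0 := Multiset.eq_zero_of_forall_notMem fun z hz => hZ z hz
    rw [hZ0, add_zero] at h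
    obtain ⟨σ, hσ, hc⟩ := inv_of_pm (fun i : Fin (2 * k) => (⟨(x i).1, (x i).2⟩ : ℂ)) h univ rfl
    have hinv : Function.Involutive σ := fun i => (hσ i (mem_univ _)).2.1
    refine ⟨⟨hinv.toPerm σ, hinv, fun i => (hσ i (mem_univ _)).2.2⟩, ?_⟩
    simp only [hd]
    exact hc.symm

end Pool.Agent.Helper66.Matching
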